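import Pool.Agent.H21.CV.Targets

/-!
# The size of the determinants
-/

namespace Pool.Agent.H74.CVZ

open Finset MvPolynomial Pool.Agent.H31.RZ Pool.Agent.H21.CV

lemma pow_entry {e : ℕ} (M : Matrix (Fin e) (Fin e) ℤ) (A D : ℤ) (hD : (e : ℤ) ≤ D) (hA : 0 ≤ A)
    (hM : ∀ a b, |M a b| ≤ A) : ∀ (k : ℕ) (a b : Fin e), |(M ^ k) a b| ≤ (D * A) ^ k := by
  intro k
  induction k with
  | zero =>
    intro a b
    rw [pow_zero, pow_zero, Matrix.one_apply]
    split_ifs <;> simp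
  | succ k ih =>
    intro a b
    rw [pow_succ, Matrix.mul_apply]
    have hD0 : 0 ≤ D := le_trans (by positivity) hD
    calc |∑ c, (M ^ k) a c * M c b| ≤ ∑ c, |(M ^ k) a c * M c b| := abs_sum_le_sum_abs _ _
      _ ≤ ∑ _c : Fin e, (D * A) ^ k * A := by
          apply sum_le_sum
          intro c _
          rw [abs_mul]
          exact mul_le_mul (ih a c) (hM c b) (abs_nonneg _) (by positivity)
      _ = (e : ℤ) * ((D * A) ^ k * A) := by
          rw [sum_const, card_univ, Fintype.card_fin, nsmul_eq_mul]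
      _ ≤ D * ((D * A) ^ k * A) := by
          apply mul_le_mul_of_nonneg_right hD
          positivity
      _ = (D * A) ^ (k + 1) := by ring

lemma support_card {n d : ℕ} (F : MvPolynomial (Fin n) ℤ) (hF : F.IsHomogeneous d) :
    #F.support ≤ (d + 1) ^ n := by
  have hle : ∀ μ ∈ F.support, ∀ i, μ i ≤ d := by
    intro μ hμ i
    have h1 := hF (mem_support_iff.1 hμ)
    rw [← h1]
    exact Finsupp.le_weight 1 (by simp) μ
  calc #F.support ≤ #(Fintype.piFinset fun _ : Fin n => range (d + 1)) := by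
        apply card_le_card_of_injOn (fun μ : Fin n →₀ ℕ => (μ : Fin n → ℕ))
        · intro μ hμ
          rw [mem_coe, Fintype.mem_piFinset]
          intro i
          rw [mem_range]
          exact Nat.lt_succ_of_le (hle μ hμ i)
        · intro μ _ ν _ h
          exact DFunLike.coe_injective h
    _ = (d + 1) ^ n := by
        rw [Fintype.card_piFinset]
        simp

lemma le_of_support {n d : ℕ} (F : MvPolynomial (Fin n) ℤ) (hF : F.IsHomogeneous d) :
    ∀ μ ∈ F.support, ∀ i, μ i ≤ d := by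
  intro μ hμ i
  have h1 := hF (mem_support_iff.1 hμ)
  rw [← h1]
  exact Finsupp.le_weight 1 (by simp) μ

theorem pf_SIZ (hS : T_SPM) : T_SIZ := by
  intro m d D K C₁
  refine ⟨((D + 1) ^ m).factorial * ((d + 1) ^ (m + 2) * (C₁ + 1) *
    (((D + 1) ^ 4) ^ d) ^ m) ^ ((D + 1) ^ m), (K + K * d * m) * (D + 1) ^ m,
    Nat.one_le_iff_ne_zero.2 (by positivity), ?_⟩
  intro H F e w s t hH hF hFc hs ht hw hwc
  have hH0 : (1 : ℤ) ≤ H := by exact_mod_cast hH
  have hHK : (1 : ℤ) ≤ (H : ℤ) ^ K := one_le_pow₀ hH0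
  obtain ⟨A, hAdef⟩ : ∃ A : ℤ, A = ((D : ℤ) + 1) ^ 3 * (H : ℤ) ^ K := ⟨_, rfl⟩
  have hD1 : (1 : ℤ) ≤ (D : ℤ) + 1 := by
    have : (0 : ℤ) ≤ D := Int.natCast_nonneg D
    linarith
  have hA1 : 1 ≤ A := by
    rw [hAdef]
    have : (1 : ℤ) ≤ ((D : ℤ) + 1) ^ 3 := one_le_pow₀ hD1
    nlinarith
  have hcoef : ∀ i j, |(sp (w i) s t).coeff j| ≤ A := by
    intro i j
    obtain ⟨h1, h2, h3, h4⟩ := hw i
    have h5 := (hS (w i) (e i) s t h3 h4).2.2.2 (H ^ K) (by
      intro μ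
      push_cast
      exact hwc i μ) hs ht j
    refine h5.trans ?_
    rw [hAdef]
    push_cast
    have h6 : ((e i : ℤ) + 1) ≤ (D : ℤ) + 1 := by
      have : (e i : ℤ) ≤ D := by exact_mod_cast h2
      linarith
    gcongr
  have hcpm : ∀ i a b, |cpm (sp (w i) s t) (e i) a b| ≤ A := by
    intro i a b
    unfold cpm
    split_ifs
    · simpa using hA1
    · simp only [abs_zero]
      linarith
    · rw [abs_neg]
      exact hcoef i _
  obtain ⟨E₁, hE₁⟩ : ∃ E₁ : ℤ, E₁ = (((D : ℤ) + 1) * A) ^ d := ⟨_, rfl⟩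
  have hDA : 1 ≤ ((D : ℤ) + 1) * A := by nlinarith
  have hE₁1 : 1 ≤ E₁ := by
    rw [hE₁]
    exact one_le_pow₀ hDA
  have hpow : ∀ i a b k, k ≤ d → |((cpm (sp (w i) s t) (e i)) ^ k) a b| ≤ E₁ := by
    intro i a b k hk
    have h1 := pow_entry (cpm (sp (w i) s t) (e i)) A ((D : ℤ) + 1) (by
      have : (e i : ℤ) ≤ D := by exact_mod_cast (hw i).2.1
      linarith) (by linarith) (hcpm i) k a b
    refine h1.trans ?_
    rw [hE₁]
    exact pow_le_pow_right₀ hDA hk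
  obtain ⟨E, hE⟩ : ∃ E : ℤ, E = ((d : ℤ) + 1) ^ (m + 2) * ((C₁ : ℤ) + 1) * (H : ℤ) ^ K * E₁ ^ m :=
    ⟨_, rfl⟩
  have hd1 : (1 : ℤ) ≤ (d : ℤ) + 1 := by
    have : (0 : ℤ) ≤ d := Int.natCast_nonneg d
    linarith
  have hC1 : (0 : ℤ) ≤ C₁ := Int.natCast_nonneg _
  have hE1 : 1 ≤ E := by
    rw [hE]
    have h1 : (1 : ℤ) ≤ ((d : ℤ) + 1) ^ (m + 2) := one_le_pow₀ hd1
    have h2 : (1 : ℤ) ≤ E₁ ^ m := one_le_pow₀ hE₁1
    have h3 : (1 : ℤ) ≤ ((d : ℤ) + 1) ^ (m + 2) * ((C₁ : ℤ) + 1) :=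
      one_le_mul_of_one_le_of_one_le h1 (by linarith)
    have h4 := one_le_mul_of_one_le_of_one_le h3 hHK
    exact one_le_mul_of_one_le_of_one_le h4 h2
  have hentry : ∀ β γ, |MF F s t (fun i => sp (w i) s t) e β γ| ≤ E := by
    intro β γ
    unfold MF
    have h1 : ∀ μ ∈ F.support, |(F.coeff μ) * s ^ μ 0 * t ^ μ 1 *
        ∏ i, ((cpm (sp (w i) s t) (e i)) ^ μ i.succ.succ) (β i) (γ i)| ≤
        ((C₁ : ℤ) + 1) * (H : ℤ) ^ K * E₁ ^ m := by
      intro μ hμ
      have hμd := le_of_support F hF μ hμ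
      rw [abs_mul, abs_mul, abs_mul, abs_pow, abs_pow, abs_prod]
      have h2 : |F.coeff μ| ≤ ((C₁ : ℤ) + 1) * (H : ℤ) ^ K := by
        refine (hFc μ).trans ?_
        nlinarith
      have h3 : |s| ^ μ 0 ≤ 1 := pow_le_one₀ (abs_nonneg _) hs
      have h4 : |t| ^ μ 1 ≤ 1 := pow_le_one₀ (abs_nonneg _) ht
      have h5 : ∏ i, |((cpm (sp (w i) s t) (e i)) ^ μ i.succ.succ) (β i) (γ i)| ≤ E₁ ^ m := by
        calc ∏ i, |((cpm (sp (w i) s t) (e i)) ^ μ i.succ.succ) (β i) (γ i)| ≤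
            ∏ _i : Fin m, E₁ := by
              apply prod_le_prod
              · intro i _
                exact abs_nonneg _
              · intro i _
                exact hpow i _ _ _ (hμd _)
          _ = E₁ ^ m := by
              rw [prod_const, card_univ, Fintype.card_fin]
      have h6 : |F.coeff μ| * |s| ^ μ 0 ≤ ((C₁ : ℤ) + 1) * (H : ℤ) ^ K * 1 :=
        mul_le_mul h2 h3 (by positivity) (by positivity)
      have h7 : |F.coeff μ| * |s| ^ μ 0 * |t| ^ μ 1 ≤ ((C₁ : ℤ) + 1) * (H : ℤ) ^ K * 1 * 1 :=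
        mul_le_mul h6 h4 (by positivity) (by positivity)
      rw [mul_one, mul_one] at h7
      exact mul_le_mul h7 h5 (prod_nonneg fun i _ => abs_nonneg _) (by positivity)
    calc |∑ μ ∈ F.support, (F.coeff μ) * s ^ μ 0 * t ^ μ 1 *
          ∏ i, ((cpm (sp (w i) s t) (e i)) ^ μ i.succ.succ) (β i) (γ i)|
        ≤ ∑ μ ∈ F.support, |(F.coeff μ) * s ^ μ 0 * t ^ μ 1 *
          ∏ i, ((cpm (sp (w i) s t) (e i)) ^ μ i.succ.succ) (β i) (γ i)| :=
          abs_sum_le_sum_abs _ _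
      _ ≤ ∑ _μ ∈ F.support, ((C₁ : ℤ) + 1) * (H : ℤ) ^ K * E₁ ^ m := sum_le_sum h1
      _ = #F.support * (((C₁ : ℤ) + 1) * (H : ℤ) ^ K * E₁ ^ m) := by
          rw [sum_const, nsmul_eq_mul]
      _ ≤ ((d : ℤ) + 1) ^ (m + 2) * (((C₁ : ℤ) + 1) * (H : ℤ) ^ K * E₁ ^ m) := by
          apply mul_le_mul_of_nonneg_right
          · have := support_card F hF
            exact_mod_cast this
          · positivity
      _ = E := by rw [hE]; ring
  have hdet := Matrix.det_le (A := MF F s t (fun i => sp (w i) s t) e)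
    (abv := AbsoluteValue.abs) (x := E) (fun i j => hentry i j)
  rw [AbsoluteValue.abs_apply, nsmul_eq_mul] at hdet
  have hcard : Fintype.card ((i : Fin m) → Fin (e i)) ≤ (D + 1) ^ m := by
    rw [Fintype.card_pi]
    calc ∏ i, Fintype.card (Fin (e i)) ≤ ∏ _i : Fin m, (D + 1) := by
          apply prod_le_prod'
          intro i _
          rw [Fintype.card_fin]
          have := (hw i).2.1
          omega
      _ = (D + 1) ^ m := by
          rw [prod_const, card_univ, Fintype.card_fin]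
  have h1 : ((Fintype.card ((i : Fin m) → Fin (e i))).factorial : ℤ) ≤
      (((D + 1) ^ m).factorial : ℕ) := by
    exact_mod_cast Nat.factorial_le hcard
  have h2 : E ^ Fintype.card ((i : Fin m) → Fin (e i)) ≤ E ^ ((D + 1) ^ m) :=
    pow_le_pow_right₀ hE1 hcard
  have h3 : E = (((d + 1) ^ (m + 2) * (C₁ + 1) * (((D + 1) ^ 4) ^ d) ^ m : ℕ) : ℤ) *
      (H : ℤ) ^ (K + K * d * m) := by
    rw [hE, hE₁, hAdef]
    push_cast
    have e1 : ((((D : ℤ) + 1) * (((D : ℤ) + 1) ^ 3 * (H : ℤ) ^ K)) ^ d) ^ m =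
        ((((D : ℤ) + 1) ^ 4) ^ d) ^ m * (((H : ℤ) ^ K) ^ d) ^ m := by
      rw [← mul_pow, ← mul_pow]
      congr 2
      ring
    have e2 : (H : ℤ) ^ (K + K * d * m) = (H : ℤ) ^ K * (((H : ℤ) ^ K) ^ d) ^ m := by
      rw [pow_add, pow_mul, pow_mul]
    rw [e1, e2]
    ring
  calc |(MF F s t (fun i => sp (w i) s t) e).det| ≤
        ((Fintype.card ((i : Fin m) → Fin (e i))).factorial : ℤ) *
          E ^ Fintype.card ((i : Fin m) → Fin (e i)) := hdet
    _ ≤ (((D + 1) ^ m).factorial : ℕ) * E ^ ((D + 1) ^ m) := by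
        apply mul_le_mul h1 h2 (by positivity) (by positivity)
    _ = _ := by
        rw [h3, mul_pow, ← pow_mul]
        push_cast
        ring

end Pool.Agent.H74.CVZ
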